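import Mathlib
import Pool.Agent.Lib.helper5.Book
import Pool.Agent.H.MP_31fefb_co.B

namespace Pool.Agent.Results.MP_31fefb_co.No

open SimpleGraph Pool.Agent.H.MP_31fefb_co Pool.Agent.Lib.helper5.Book

variable {V W : Type}

/-- Tree-width. -/
noncomputable def tw (G : SimpleGraph V) : ℕ := sInf {w | HasTreeDec G w}

/-- Every finite graph of tree-width at least `w` has an `H` minor. -/
def Forces (H : SimpleGraph W) (w : ℕ) : Prop :=
  ∀ (V : Type) [Finite V] (G : SimpleGraph V), w ≤ tw G → IsMinor H G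

/-- The threshold `f(H)`. -/
noncomputable def f (H : SimpleGraph W) : ℕ := sInf {w | Forces H w}

/-- `H` with the edge `uv` replaced by a new vertex `none` and the two edges to `u` and `v`. -/
def subdiv (H : SimpleGraph W) (u v : W) : SimpleGraph (Option W) :=
  fromRel fun a b => (∃ x y, a = some x ∧ b = some y ∧ H.Adj x y ∧ s(x, y) ≠ s(u, v)) ∨
    (a = none ∧ (b = some u ∨ b = some v))

/-- Disjoint triangles. -/
def Tri (t : ℕ) : SimpleGraph (Fin t × Fin 3) := fromRel fun a b => a.1 = b.1 ∧ a.2 < b.2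

theorem tri_adj {t : ℕ} {a b : Fin t × Fin 3} : (Tri t).Adj a b ↔ a.1 = b.1 ∧ a.2 ≠ b.2 := by
  obtain ⟨i, c⟩ := a
  obtain ⟨j, d⟩ := b
  simp only [Tri, fromRel_adj, ne_eq, Prod.mk.injEq]
  constructor
  · rintro ⟨-, ⟨h, h'⟩ | ⟨h, h'⟩⟩
    · exact ⟨h, h'.ne⟩
    · exact ⟨h.symm, h'.ne'⟩
  · rintro ⟨h, h'⟩
    exact ⟨fun e => h' e.2, (lt_or_gt_of_ne h').imp (⟨h, ·⟩) (⟨h.symm, ·⟩)⟩

theorem planar (t : ℕ) : Planar (Tri t) := by
  refine book _ (fun a => 3 * a.1.val + a.2.val) ?_ (fun _ _ => true) ?_ ?_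
  · rintro ⟨i, c⟩ ⟨j, d⟩ h
    simp only at h
    have : i = j ∧ c = d := ⟨Fin.ext (by omega), Fin.ext (by omega)⟩
    rw [this.1, this.2]
  · rintro ⟨i, c⟩ ⟨j, d⟩ ⟨h, h'⟩
    simp only [Fin.lt_def, Fin.ext_iff] at h h' ⊢
    omega
  · rintro ⟨i, c⟩ ⟨j, d⟩ ⟨i', c'⟩ ⟨j', d'⟩ ⟨h, h'⟩ ⟨g, g'⟩ -
    simp only [Fin.lt_def, Fin.ext_iff] at h h' g g' ⊢
    omega

theorem contract {H : SimpleGraph W} {G : SimpleGraph V} {u v : W} (huv : H.Adj u v)
    (h : IsMinor (subdiv H u v) G) : IsMinor H G := by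
  classical
  obtain ⟨B, h1, h2, h3⟩ := h
  obtain ⟨a, ha, b, hb, hab⟩ := h3 none (some u) ⟨by simp, Or.inl (Or.inr ⟨rfl, Or.inl rfl⟩)⟩
  obtain ⟨c, hc, d, hd, hcd⟩ := h3 none (some v) ⟨by simp, Or.inl (Or.inr ⟨rfl, Or.inr rfl⟩)⟩
  have sub : ∀ x, B (some x) ⊆ if x = u then B none ∪ B (some x) else B (some x) := by
    intro x
    split_ifs <;> simp
  refine ⟨fun x => if x = u then B none ∪ B (some x) else B (some x), fun x => ?_,
    fun x y hxy => ?_, fun x y hxy => ?_⟩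
  · by_cases e : x = u
    · subst e
      beta_reduce
      rw [if_pos rfl]
      exact connected_induce_union (h1 _).preconnected (h1 _).preconnected ha hb hab
    · beta_reduce
      rw [if_neg e]
      exact h1 _
  · have := h2 (some x) (some y) (by simpa using hxy)
    have := h2 none (some y) (by simp)
    have := h2 (some x) none (by simp)
    beta_reduce
    split_ifs <;> simp_all
  · by_cases e : s(x, y) = s(u, v)
    · rcases Sym2.eq_iff.1 e with ⟨rfl, rfl⟩ | ⟨rfl, rfl⟩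
      · exact ⟨c, by simp [hc], d, sub _ hd, hcd⟩
      · exact ⟨d, sub _ hd, c, by simp [hc], hcd.symm⟩
    · obtain ⟨p, hp, q, hq, hpq⟩ := h3 (some x) (some y)
        ⟨by simpa using hxy.ne, Or.inl (Or.inl ⟨x, y, rfl, rfl, hxy, e⟩)⟩
      exact ⟨p, sub _ hp, q, sub _ hq, hpq⟩

theorem sing (G : SimpleGraph V) (a : V) : (G.induce {a}).Connected := by
  rw [induce_singleton_eq_top]
  exact connected_top

theorem build {t : ℕ} {G : SimpleGraph V} {B : Fin (t + 1) × Fin 3 → Set V}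
    (hB : Model (Tri (t + 1)) G B) {S : Set V} (hS : LC G S)
    (hd : ∀ x, x.1 ≠ 0 → Disjoint S (B x)) : IsMinor (subdiv (Tri (t + 1)) (0, 0) (0, 1)) G := by
  classical
  obtain ⟨h1, h2, h3⟩ := hB
  obtain ⟨a, b, c, v, d, D, k1, k2, k3, k4, k5, k6, k7, k8, k9, k10, k11, m1, m2, m3, m4⟩ := hS
  let E : Option (Fin 3) → Set V := fun o => o.elim {a} ![D, {b}, {c}]
  have ES : ∀ o, E o ⊆ S := by
    rintro (_ | i)
    · simpa [E] using m1
    · fin_cases i
      · exact m4
      · simpa [E] using m2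
      · simpa [E] using m3
  have Ec : ∀ o, (G.induce (E o)).Connected := by
    rintro (_ | i)
    · exact sing G a
    · fin_cases i
      · exact k1
      · exact sing G b
      · exact sing G c
  have Ed : ∀ o o', o ≠ o' → Disjoint (E o) (E o') := by
    have := k9.ne
    have := k10.ne
    have := k9.ne'
    have := k10.ne'
    have := k2.symm
    rintro (_ | i) (_ | j) h
    · exact absurd rfl h
    · fin_cases j <;> simp [E, *]
    · fin_cases i <;> simp [E, *]
    · fin_cases i <;> fin_cases j <;> first | exact absurd rfl h | simp [E, *]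
  let F : Option (Fin (t + 1) × Fin 3) → Set V := fun o =>
    o.elim (E none) fun x => if x.1 = 0 then E (some x.2) else B x
  have sym : ∀ x y, (∃ p ∈ F x, ∃ q ∈ F y, G.Adj p q) → ∃ p ∈ F y, ∃ q ∈ F x, G.Adj p q :=
    fun x y ⟨p, hp, q, hq, h⟩ => ⟨q, hq, p, hp, h.symm⟩
  have one : ∀ x y, ((∃ x' y', x = some x' ∧ y = some y' ∧ (Tri (t + 1)).Adj x' y' ∧
      s(x', y') ≠ s((0, 0), (0, 1))) ∨ (x = none ∧ (y = some (0, 0) ∨ y = some (0, 1)))) →
      ∃ p ∈ F x, ∃ q ∈ F y, G.Adj p q := by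
    rintro x y (⟨⟨i, e⟩, ⟨j, e'⟩, rfl, rfl, h, h'⟩ | ⟨rfl, rfl | rfl⟩)
    · obtain ⟨g, g'⟩ := tri_adj.1 h
      simp only at g g'
      subst g
      by_cases z : i = 0
      · subst z
        fin_cases e <;> fin_cases e' <;>
          first | exact absurd rfl g' | exact absurd rfl h' | exact absurd Sym2.eq_swap h' | skip
        · exact ⟨d, k7, c, rfl, k11.symm⟩
        · exact ⟨b, rfl, c, rfl, k10⟩
        · exact ⟨c, rfl, d, k7, k11⟩
        · exact ⟨c, rfl, b, rfl, k10.symm⟩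
      · simpa [F, z] using h3 _ _ h
    · exact ⟨a, rfl, v, k6, k8.symm⟩
    · exact ⟨a, rfl, b, rfl, k9⟩
  refine ⟨F, ?_, ?_, fun x y h => h.2.elim (one x y) fun g => sym _ _ (one y x g)⟩
  · rintro (_ | x)
    · exact Ec none
    · by_cases z : x.1 = 0
      · have : F (some x) = E (some x.2) := if_pos z
        rw [this]
        exact Ec _
      · have : F (some x) = B x := if_neg z
        rw [this]
        exact h1 _
  · rintro (_ | x) (_ | y) h
    · exact absurd rfl h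
    · simp only [F, Option.elim]
      split_ifs with z
      · exact Ed _ _ (by simp)
      · exact (hd y z).mono_left (ES _)
    · simp only [F, Option.elim]
      split_ifs with z
      · exact Ed _ _ (by simp)
      · exact ((hd x z).mono_left (ES _)).symm
    · simp only [F, Option.elim]
      split_ifs with z z' z'
      · exact Ed _ _ fun e => h (congrArg some (Prod.ext (z.trans z'.symm) (Option.some.inj e)))
      · exact (hd y z').mono_left (ES _)
      · exact ((hd x z).mono_left (ES _)).symm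
      · exact h2 x y fun e => h (congrArg some e)

theorem piece {t : ℕ} {G : SimpleGraph V} {B : Fin t × Fin 3 → Set V} (hB : Model (Tri t) G B)
    (i : Fin t) : (∃ τ : Fin 3 → V, (∀ c, τ c ∈ ⋃ e, B (i, e)) ∧
      ∀ c c', c ≠ c' → G.Adj (τ c) (τ c')) ∨ LC G (⋃ e, B (i, e)) :=
  cyc (fun e => B (i, e)) ⟨fun _ => hB.1 _, fun x y h => hB.2.1 _ _ (by simpa using h),
    fun x y h => hB.2.2 _ _ (tri_adj.2 ⟨rfl, h.ne⟩)⟩ fun c => Set.subset_iUnion (fun e => B (i, e)) c

theorem apart {t : ℕ} {G : SimpleGraph V} {B : Fin t × Fin 3 → Set V} (hB : Model (Tri t) G B)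
    {i j : Fin t} {z : V} (hi : z ∈ ⋃ e, B (i, e)) (hj : z ∈ ⋃ e, B (j, e)) : i = j := by
  obtain ⟨e, he⟩ := Set.mem_iUnion.1 hi
  obtain ⟨e', he'⟩ := Set.mem_iUnion.1 hj
  by_contra h
  exact Set.disjoint_left.1 (hB.2.1 (i, e) (j, e') (by simp [h])) he he'

theorem upper {t : ℕ} [Finite V] {G : SimpleGraph V} (h : IsMinor (Tri (t + 1)) G)
    (hn : ¬ IsMinor (subdiv (Tri (t + 1)) (0, 0) (0, 1)) G) : tw G ≤ 3 * t + 2 := by
  classical
  obtain ⟨B, hB⟩ := h
  have tri : ∀ i, ∃ τ : Fin 3 → V, (∀ c, τ c ∈ ⋃ e, B (i, e)) ∧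
      ∀ c c', c ≠ c' → G.Adj (τ c) (τ c') := by
    intro i
    refine (piece hB i).resolve_right fun hl => hn ?_
    let σ := Equiv.swap (0 : Fin (t + 1)) i
    refine build (B := fun x => B (σ x.1, x.2)) ⟨fun _ => hB.1 _, fun x y hxy => hB.2.1 _ _ ?_,
      fun x y hxy => hB.2.2 _ _ ?_⟩ hl fun x hx => Set.disjoint_left.2 fun z h1 h2 => hx ?_
    · exact fun e => hxy (Prod.ext (σ.injective (Prod.ext_iff.1 e).1) (Prod.ext_iff.1 e).2)
    · exact tri_adj.2 ⟨congrArg σ (tri_adj.1 hxy).1, (tri_adj.1 hxy).2⟩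
    · have := apart hB h1 (Set.mem_iUnion.2 ⟨_, h2⟩)
      exact σ.injective (this.symm.trans (Equiv.swap_apply_left _ _).symm)
  choose τ h1 h2 using tri
  let X : Set V := Set.range fun x : Fin t × Fin 3 => τ x.1.succ x.2
  have hX : X.ncard ≤ 3 * t := by
    have := Set.ncard_image_le (s := Set.univ) (f := fun x : Fin t × Fin 3 => τ x.1.succ x.2)
    rw [Set.image_univ, Set.ncard_univ] at this
    simpa [mul_comm] using this
  have nl : ¬ LC G Xᶜ := fun hl => hn <| build (B := fun x => {τ x.1 x.2})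
    ⟨fun _ => sing G _, fun x y hxy => Set.disjoint_singleton.2 fun e => by
        have g : x.1 = y.1 := apart hB (h1 x.1 x.2) (e ▸ h1 y.1 y.2)
        rw [← g] at e
        exact (h2 x.1 x.2 y.2 fun g' => hxy (Prod.ext g g')).ne e,
      fun x y hxy => ⟨_, rfl, _, rfl, by
        rw [← (tri_adj.1 hxy).1]
        exact h2 _ _ _ (tri_adj.1 hxy).2⟩⟩ hl
    fun x hx => Set.disjoint_singleton_right.2 fun g => g ⟨(x.1.pred hx, x.2), by simp⟩
  exact (Nat.sInf_le (dec_of_noLC X nl)).trans (by omega)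

theorem count {t : ℕ} [Finite V] {G : SimpleGraph V}
    (hG : ∀ a b c, G.Adj a b → G.Adj b c → G.Adj c a → False) (h : IsMinor (Tri t) G) :
    4 * t ≤ Nat.card V := by
  obtain ⟨B, hB⟩ := h
  have four : ∀ i, ∃ g : Fin 4 → V, Function.Injective g ∧ ∀ c, g c ∈ ⋃ e, B (i, e) := by
    intro i
    rcases piece hB i with ⟨τ, -, h⟩ |
      ⟨a, b, c, v, d, D, -, k2, k3, k4, k5, k6, -, -, k9, k10, -, m1, m2, m3, m4⟩
    · exact (hG _ _ _ (h 0 1 (by simp)) (h 1 2 (by simp)) (h 2 0 (by simp))).elim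
    · have n1 : a ≠ v := fun e => k3 (e ▸ k6)
      have n2 : b ≠ v := fun e => k4 (e ▸ k6)
      have n3 : c ≠ v := fun e => k5 (e ▸ k6)
      refine ⟨![a, b, c, v], ?_, fun e => ?_⟩
      · have : [a, b, c, v].Nodup := by simp [k9.ne, k10.ne, k2, n1, n2, n3]
        exact List.nodup_ofFn.1 (by simpa using this)
      · fin_cases e
        exacts [m1, m2, m3, m4 k6]
  choose g h1 h2 using four
  have := Nat.card_le_card_of_injective (fun x : Fin t × Fin 4 => g x.1 x.2) fun x y e => by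
    have q : x.1 = y.1 := apart hB (h2 x.1 x.2) ((show g x.1 x.2 = g y.1 y.2 from e) ▸ h2 y.1 y.2)
    refine Prod.ext q (h1 x.1 ?_)
    rw [show g x.1 x.2 = g y.1 y.2 from e, q]
  simpa [mul_comm] using this

instance : Fact (Nat.Prime 1601) := ⟨by norm_num⟩

/-- The second coordinate: the inverse of `i + 1`. -/
def iv (i : Fin 533) : ZMod 1601 := ((i.val + 1 : ℕ) : ZMod 1601)⁻¹

theorem nz {n : ℕ} (h0 : 0 < n) (h : n < 1601) : (n : ZMod 1601) ≠ 0 := by
  rw [Ne, ZMod.natCast_eq_zero_iff]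
  exact fun e => absurd (Nat.le_of_dvd h0 e) (by omega)

/-- A triangle-free expander. -/
def G0 : SimpleGraph (ZMod 1601 × Fin 533) where
  Adj a b := a ≠ b ∧ iv a.2 + iv b.2 = (a.1 - b.1) ^ 2
  symm := ⟨fun a b h => ⟨h.1.symm, by linear_combination h.2⟩⟩
  loopless := ⟨fun a h => h.1 rfl⟩

theorem trifree (a b c) (h1 : G0.Adj a b) (h2 : G0.Adj b c) (h3 : G0.Adj c a) : False := by
  have e1 := h1.2
  have e2 := h2.2
  have e3 := h3.2
  have u : ∀ i : Fin 533, ((i.val + 1 : ℕ) : ZMod 1601) * iv i = 1 := fun i =>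
    mul_inv_cancel₀ (nz (by omega) (by omega))
  have k : 4 * (iv a.2 * iv b.2 + iv b.2 * iv c.2 + iv c.2 * iv a.2) = 0 := by
    have : 4 * (iv a.2 * iv b.2 + iv b.2 * iv c.2 + iv c.2 * iv a.2) =
        4 * (iv a.2 + iv b.2) * (iv b.2 + iv c.2) -
          ((iv a.2 + iv b.2) + (iv b.2 + iv c.2) - (iv c.2 + iv a.2)) ^ 2 := by ring
    rw [this, e1, e2, e3]
    ring
  have k' := (mul_eq_zero.1 k).resolve_left (nz (n := 4) (by omega) (by omega))
  have ua := u a.2
  have ub := u b.2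
  have uc := u c.2
  refine nz (n := (a.2.val + 1) + (b.2.val + 1) + (c.2.val + 1)) (by omega) (by omega) ?_
  rw [Nat.cast_add, Nat.cast_add]
  generalize ((a.2.val + 1 : ℕ) : ZMod 1601) = x at *
  generalize ((b.2.val + 1 : ℕ) : ZMod 1601) = y at *
  generalize ((c.2.val + 1 : ℕ) : ZMod 1601) = z at *
  linear_combination x * y * z * k' - z * y * iv b.2 * ua - z * ub - x * z * iv c.2 * ub - x * uc -
    y * x * iv a.2 * uc - y * ua

theorem expand (A B : Set (ZMod 1601 × Fin 533)) (hA : 64100 ≤ A.ncard) (hB : 64100 ≤ B.ncard) :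
    ∃ a ∈ A, ∃ b ∈ B, a = b ∨ G0.Adj a b := by
  classical
  by_contra hc
  let e : ZMod 1601 × Fin 533 → ZMod 1601 × ZMod 1601 := fun a => (a.1, iv a.2)
  have he : Function.Injective e := by
    intro a b h
    refine Prod.ext (Prod.ext_iff.1 h).1 (Fin.ext ?_)
    have := (ZMod.natCast_eq_natCast_iff' _ _ _).1 (inv_injective (Prod.ext_iff.1 h).2)
    omega
  have := incid 1601 (nz (n := 2) (by omega) (by omega)) (e '' A).toFinset (e '' B).toFinset (by
    simp only [Set.mem_toFinset]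
    rintro _ ⟨a, ha, rfl⟩ _ ⟨b, hb, rfl⟩ h
    exact hc ⟨a, ha, b, hb, or_iff_not_imp_left.2 fun n => ⟨n, h⟩⟩)
  rw [← Set.ncard_eq_toFinset_card', ← Set.ncard_eq_toFinset_card',
    Set.ncard_image_of_injective _ he, Set.ncard_image_of_injective _ he] at this
  have := Nat.mul_le_mul hA hB
  omega

theorem cardV : Nat.card (ZMod 1601 × Fin 533) = 853333 := by simp

theorem lower : 3 * 213333 + 2 ≤ tw G0 := by
  have ne : {w | HasTreeDec G0 w}.Nonempty := ⟨_, dec_of_noLC Set.univ (by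
    rintro ⟨a, -, -, -, -, -, -, -, -, -, -, -, -, -, -, -, -, m, -⟩
    simp at m)⟩
  by_contra h
  exact no_dec 64100 (tw G0) expand (by rw [cardV]; omega) (by omega) (Nat.sInf_mem ne)

theorem result : ∃ (W : Type) (_ : Finite W) (H : SimpleGraph W) (u v : W), Planar H ∧
    H.Adj u v ∧ (∀ w, Forces (subdiv H u v) w ↔ Forces H w) ∧ f (subdiv H u v) ≠ f H + 1 := by
  have a : (Tri (213333 + 1)).Adj (0, 0) (0, 1) := tri_adj.2 ⟨rfl, by simp⟩
  have key : ∀ w, Forces (subdiv (Tri (213333 + 1)) (0, 0) (0, 1)) w ↔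
      Forces (Tri (213333 + 1)) w := by
    refine fun w => ⟨fun h V _ G hw => contract a (h V G hw), fun h V _ G hw => ?_⟩
    by_contra hn
    have h1 := upper (h V G hw) hn
    have h2 := count trifree (h _ G0 (hw.trans (h1.trans lower)))
    rw [cardV] at h2
    omega
  refine ⟨_, inferInstance, _, _, _, planar _, a, key, ?_⟩
  simp only [f, key]
  omega

end Pool.Agent.Results.MP_31fefb_co.No
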